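import Mathlib

/-!
# In every tree the independent domination number is at most the weak domination number

Main step: in a forest, a dominating set `D` that contains all vertices of degree at most one can be
replaced, in every component, by an independent dominating set that is not larger. The induction
removes an edge at a root and carries several rooted versions of the statement along.
-/

set_option autoImplicit false

namespace Pool.Agent.Results.MP_2d208d_co.TreesHold

open Finset Classical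

variable {V : Type} [Fintype V]

/-- `D` is dominating: every vertex outside `D` has a neighbour in `D` -/
def IsDominating (G : SimpleGraph V) (D : Finset V) : Prop :=
  ∀ v, v ∉ D → ∃ u ∈ D, G.Adj v u

/-- `D` is independent -/
def IsIndependent (G : SimpleGraph V) (D : Finset V) : Prop :=
  ∀ u ∈ D, ∀ v ∈ D, ¬ G.Adj u v

/-- `D` is a weak dominating set: every `v` outside `D` is adjacent to some `u` in `D` with
`deg u ≤ deg v` -/
def IsWeakDominating (G : SimpleGraph V) (D : Finset V) : Prop :=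
  ∀ v, v ∉ D → ∃ u ∈ D, G.Adj v u ∧ G.degree u ≤ G.degree v

/-- independent domination number -/
noncomputable def indepDomNumber (G : SimpleGraph V) : ℕ :=
  sInf {s | ∃ D : Finset V, IsDominating G D ∧ IsIndependent G D ∧ D.card = s}

/-- weak domination number -/
noncomputable def weakDomNumber (G : SimpleGraph V) : ℕ :=
  sInf {s | ∃ D : Finset V, IsWeakDominating G D ∧ D.card = s}

/-! ### The induction -/

/-- vertex set of the component of `r` -/
noncomputable def K (G : SimpleGraph V) (r : V) : Finset V :=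
  Finset.univ.filter (fun x => G.Reachable r x)

theorem mem_K {G : SimpleGraph V} {r x : V} : x ∈ K G r ↔ G.Reachable r x := by
  simp [K]

/-- there is an independent set `I` in the component of `r`, of size at most `n`, containing `r`
iff `b`, dominating all vertices of the component other than `r`, and also `r` if `f` -/
def Sol (G : SimpleGraph V) (r : V) (b f : Bool) (n : ℕ) : Prop :=
  ∃ I : Finset V, I ⊆ K G r ∧ (r ∈ I ↔ b = true) ∧ IsIndependent G I ∧
    (∀ x ∈ K G r, x ≠ r → x ∉ I → ∃ y ∈ I, G.Adj x y) ∧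
    (f = true → r ∉ I → ∃ y ∈ I, G.Adj r y) ∧ I.card ≤ n

theorem Sol.mono {G : SimpleGraph V} {r : V} {b f : Bool} {n m : ℕ} (h : Sol G r b f n)
    (hnm : n ≤ m) : Sol G r b f m := by
  obtain ⟨I, h1, h2, h3, h4, h5, h6⟩ := h
  exact ⟨I, h1, h2, h3, h4, h5, h6.trans hnm⟩

theorem Sol.weak {G : SimpleGraph V} {r : V} {b f : Bool} {n : ℕ} (h : Sol G r b f n) :
    Sol G r b false n := by
  obtain ⟨I, h1, h2, h3, h4, h5, h6⟩ := h
  exact ⟨I, h1, h2, h3, h4, (fun h => absurd h (by simp)), h6⟩

theorem Sol.full {G : SimpleGraph V} {r : V} {f : Bool} {n : ℕ} (h : Sol G r true f n) :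
    Sol G r true true n := by
  obtain ⟨I, h1, h2, h3, h4, h5, h6⟩ := h
  exact ⟨I, h1, h2, h3, h4, fun _ h => absurd (h2.2 rfl) h, h6⟩

section split

variable {G : SimpleGraph V} {r c : V}

/-- the graph without the edge `rc` -/
abbrev cut (G : SimpleGraph V) (r c : V) : SimpleGraph V := G.deleteEdges {s(r, c)}

omit [Fintype V] in
theorem cut_adj {x y : V} : (cut G r c).Adj x y ↔ G.Adj x y ∧ s(x, y) ≠ s(r, c) := by
  simp [cut, SimpleGraph.deleteEdges_adj]

omit [Fintype V] in
theorem not_reach (hG : G.IsAcyclic) (hrc : G.Adj r c) : ¬ (cut G r c).Reachable r c :=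
  SimpleGraph.isBridge_iff.1 (SimpleGraph.isAcyclic_iff_forall_isBridge.1 hG hrc)

theorem K_union (hrc : G.Adj r c) : K G r = K (cut G r c) r ∪ K (cut G r c) c := by
  ext x
  rw [mem_union, mem_K, mem_K, mem_K]
  constructor
  · intro h
    rw [SimpleGraph.reachable_iff_reflTransGen] at h
    induction h with
    | refl => exact Or.inl (SimpleGraph.Reachable.refl _)
    | @tail y z _ hyz ih =>
      by_cases he : s(y, z) = s(r, c)
      · rcases Sym2.eq_iff.1 he with ⟨-, h2⟩ | ⟨-, h2⟩
        · right; rw [h2]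
        · left; rw [h2]
      · have h1 : (cut G r c).Adj y z := cut_adj.2 ⟨hyz, he⟩
        rcases ih with h | h
        · exact Or.inl (h.trans h1.reachable)
        · exact Or.inr (h.trans h1.reachable)
  · rintro (h | h)
    · exact h.mono (SimpleGraph.deleteEdges_le _)
    · exact hrc.reachable.trans (h.mono (SimpleGraph.deleteEdges_le _))

theorem K_disj (hG : G.IsAcyclic) (hrc : G.Adj r c) :
    Disjoint (K (cut G r c) r) (K (cut G r c) c) := by
  rw [Finset.disjoint_left]
  intro x h1 h2
  rw [mem_K] at h1 h2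
  exact not_reach hG hrc (h1.trans h2.symm)

theorem combine (hG : G.IsAcyclic) (hrc : G.Adj r c) {b1 f1 b2 f2 f : Bool} {n1 n2 n : ℕ}
    (h1 : Sol (cut G r c) r b1 f1 n1) (h2 : Sol (cut G r c) c b2 f2 n2)
    (hb : ¬ (b1 = true ∧ b2 = true)) (hc : f2 = true ∨ b1 = true)
    (hf : f = true → f1 = true ∨ b2 = true) (hn : n1 + n2 ≤ n) : Sol G r b1 f n := by
  obtain ⟨I, i1, i2, i3, i4, i5, i6⟩ := h1
  obtain ⟨J, j1, j2, j3, j4, j5, j6⟩ := h2
  have hd := K_disj hG hrc
  have hrK : r ∈ K (cut G r c) r := mem_K.2 (SimpleGraph.Reachable.refl _)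
  have hcK : c ∈ K (cut G r c) c := mem_K.2 (SimpleGraph.Reachable.refl _)
  have hrJ : r ∉ J := fun h => Finset.disjoint_left.1 hd hrK (j1 h)
  have hcI : c ∉ I := fun h => Finset.disjoint_left.1 hd (i1 h) hcK
  have hsub : ∀ {x y}, (cut G r c).Adj x y → G.Adj x y := fun h => (cut_adj.1 h).1
  refine ⟨I ∪ J, ?_, ?_, ?_, ?_, ?_, ?_⟩
  · rw [K_union hrc]
    exact Finset.union_subset_union i1 j1
  · rw [mem_union]
    constructor
    · rintro (h | h)
      · exact i2.1 h
      · exact absurd h hrJ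
    · intro h
      exact Or.inl (i2.2 h)
  · -- independence
    have key : ∀ x ∈ I, ∀ y ∈ J, ¬ G.Adj x y := by
      intro x hx y hy hadj
      by_cases he : s(x, y) = s(r, c)
      · rcases Sym2.eq_iff.1 he with ⟨e1, e2⟩ | ⟨e1, e2⟩
        · exact hb ⟨i2.1 (e1 ▸ hx), j2.1 (e2 ▸ hy)⟩
        · exact hcI (e1 ▸ hx)
      · have h3 : (cut G r c).Adj x y := cut_adj.2 ⟨hadj, he⟩
        have hx' := mem_K.1 (i1 hx)
        have hy' := mem_K.1 (j1 hy)
        exact not_reach hG hrc ((hx'.trans h3.reachable).trans hy'.symm)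
    intro x hx y hy hadj
    rw [mem_union] at hx hy
    rcases hx with hx | hx <;> rcases hy with hy | hy
    · by_cases he : s(x, y) = s(r, c)
      · rcases Sym2.eq_iff.1 he with ⟨e1, e2⟩ | ⟨e1, e2⟩
        · exact hcI (e2 ▸ hy)
        · exact hcI (e1 ▸ hx)
      · exact i3 x hx y hy (cut_adj.2 ⟨hadj, he⟩)
    · exact key x hx y hy hadj
    · exact key y hy x hx hadj.symm
    · by_cases he : s(x, y) = s(r, c)
      · rcases Sym2.eq_iff.1 he with ⟨e1, e2⟩ | ⟨e1, e2⟩
        · exact hrJ (e1 ▸ hx)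
        · exact hrJ (e2 ▸ hy)
      · exact j3 x hx y hy (cut_adj.2 ⟨hadj, he⟩)
  · intro x hx hxr hxn
    rw [K_union hrc, mem_union] at hx
    rw [mem_union, not_or] at hxn
    rcases hx with hx | hx
    · obtain ⟨y, hy, hadj⟩ := i4 x hx hxr hxn.1
      exact ⟨y, mem_union_left _ hy, hsub hadj⟩
    · by_cases hxc : x = c
      · subst hxc
        rcases hc with hc | hc
        · obtain ⟨y, hy, hadj⟩ := j5 hc hxn.2
          exact ⟨y, mem_union_right _ hy, hsub hadj⟩
        · exact ⟨r, mem_union_left _ (i2.2 hc), hrc.symm⟩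
      · obtain ⟨y, hy, hadj⟩ := j4 x hx hxc hxn.2
        exact ⟨y, mem_union_right _ hy, hsub hadj⟩
  · intro hf' hrn
    rw [mem_union, not_or] at hrn
    rcases hf hf' with h | h
    · obtain ⟨y, hy, hadj⟩ := i5 h hrn.1
      exact ⟨y, mem_union_left _ hy, hsub hadj⟩
    · exact ⟨c, mem_union_right _ (j2.2 h), hrc⟩
  · exact (Finset.card_union_le _ _).trans (by omega)

end split

/-- hypotheses on `D` in the component of `r`, with no condition at `r` -/
def Good (G : SimpleGraph V) (D : Finset V) (r : V) : Prop :=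
  ∀ x ∈ K G r, x ≠ r → x ∉ D →
    (∃ y ∈ D, G.Adj x y) ∧ ∃ y z, y ≠ z ∧ G.Adj x y ∧ G.Adj x z

/-- the rooted claims -/
def Claim (G : SimpleGraph V) (D : Finset V) (r : V) : Prop :=
  (r ∈ D → Sol G r true true (D ∩ K G r).card ∧
    ∃ m, m + 1 ≤ (D ∩ K G r).card ∧ Sol G r false false m) ∧
  (r ∉ D → ((∃ y, G.Adj r y) → Sol G r false true (D ∩ K G r).card) ∧
    Sol G r false false (D ∩ K G r).card ∧
    Sol G r true true ((D ∩ K G r).card + 1) ∧
    ((∃ y ∈ D, G.Adj r y) → Sol G r true true (D ∩ K G r).card))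

theorem claim_isolated {G : SimpleGraph V} {D : Finset V} {r : V} (hr : ∀ y, ¬ G.Adj r y) :
    Claim G D r := by
  have hK : K G r = {r} := by
    ext x
    rw [mem_K, Finset.mem_singleton]
    constructor
    · intro h
      rw [SimpleGraph.reachable_iff_reflTransGen] at h
      induction h with
      | refl => rfl
      | @tail y z _ hyz ih =>
        rw [ih] at hyz
        exact absurd hyz (hr z)
    · rintro rfl
      exact SimpleGraph.Reachable.refl _
  have s1 : Sol G r true true 1 := by
    refine ⟨{r}, by rw [hK], by simp, ?_, ?_, ?_, by simp⟩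
    · intro x hx y hy
      rw [Finset.mem_singleton] at hx
      rw [hx]
      exact hr y
    · intro x hx hxr
      rw [hK, Finset.mem_singleton] at hx
      exact absurd hx hxr
    · intro _ h
      simp at h
  have s2 : Sol G r false false 0 := by
    refine ⟨∅, by simp, by simp, ?_, ?_, ?_, by simp⟩
    · intro x hx
      simp at hx
    · intro x hx hxr
      rw [hK, Finset.mem_singleton] at hx
      exact absurd hx hxr
    · intro h
      cases h
  refine ⟨fun hrD => ?_, fun hrD => ?_⟩
  · have hc : (D ∩ K G r).card = 1 := by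
      rw [hK, Finset.inter_singleton_of_mem hrD]
      simp
    rw [hc]
    exact ⟨s1, 0, le_rfl, s2⟩
  · refine ⟨fun ⟨y, hy⟩ => absurd hy (hr y), s2.mono (Nat.zero_le _), s1.mono (by omega), ?_⟩
    rintro ⟨y, -, hy⟩
    exact absurd hy (hr y)

theorem claim_all (D : Finset V) : ∀ G : SimpleGraph V, G.IsAcyclic → ∀ r : V, Good G D r →
    Claim G D r := by
  intro G
  induction G using WellFoundedLT.induction with
  | _ G ih =>
  intro hG r hgood
  by_cases hr : ∀ y, ¬ G.Adj r y
  · exact claim_isolated hr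
  push Not at hr
  -- choose a neighbour `c`, inside `D` if possible
  have hc' : ∃ c, G.Adj r c ∧ ((∃ y ∈ D, G.Adj r y) → c ∈ D) := by
    by_cases h : ∃ y ∈ D, G.Adj r y
    · obtain ⟨y, hy, hadj⟩ := h
      exact ⟨y, hadj, fun _ => hy⟩
    · obtain ⟨c, hc⟩ := hr
      exact ⟨c, hc, fun h' => absurd h' h⟩
  obtain ⟨c, hrc, hcD⟩ := hc'
  have hlt : cut G r c < G := by
    refine lt_of_le_of_ne (SimpleGraph.deleteEdges_le _) ?_
    intro h
    have h1 : (cut G r c).Adj r c := by rw [h]; exact hrc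
    exact (cut_adj.1 h1).2 rfl
  have hac : (cut G r c).IsAcyclic := hG.anti (SimpleGraph.deleteEdges_le _)
  have hd := K_disj hG hrc
  have hrK : r ∈ K (cut G r c) r := mem_K.2 (SimpleGraph.Reachable.refl _)
  have hcK : c ∈ K (cut G r c) c := mem_K.2 (SimpleGraph.Reachable.refl _)
  have hKu := K_union hrc
  -- hypotheses for the two parts
  have hpres : ∀ x, x ≠ r → x ≠ c → ∀ y, G.Adj x y → (cut G r c).Adj x y := by
    intro x hxr hxc y hxy
    refine cut_adj.2 ⟨hxy, ?_⟩
    intro he
    rcases Sym2.eq_iff.1 he with ⟨e1, -⟩ | ⟨e1, -⟩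
    · exact hxr e1
    · exact hxc e1
  have g1 : Good (cut G r c) D r := by
    intro x hx hxr hxD
    have hxc : x ≠ c := by
      rintro rfl
      exact Finset.disjoint_left.1 hd hx hcK
    obtain ⟨⟨y, hy, hadj⟩, y', z', hne, ha, hb⟩ :=
      hgood x (by rw [hKu]; exact mem_union_left _ hx) hxr hxD
    exact ⟨⟨y, hy, hpres x hxr hxc y hadj⟩, y', z', hne, hpres x hxr hxc _ ha,
      hpres x hxr hxc _ hb⟩
  have g2 : Good (cut G r c) D c := by
    intro x hx hxc hxD
    have hxr : x ≠ r := by
      rintro rfl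
      exact Finset.disjoint_left.1 hd hrK hx
    obtain ⟨⟨y, hy, hadj⟩, y', z', hne, ha, hb⟩ :=
      hgood x (by rw [hKu]; exact mem_union_right _ hx) hxr hxD
    exact ⟨⟨y, hy, hpres x hxr hxc y hadj⟩, y', z', hne, hpres x hxr hxc _ ha,
      hpres x hxr hxc _ hb⟩
  obtain ⟨cr1, cr2⟩ := ih (cut G r c) hlt hac r g1
  obtain ⟨cc1, cc2⟩ := ih (cut G r c) hlt hac c g2
  -- sizes
  have hsize : (D ∩ K G r).card = (D ∩ K (cut G r c) r).card + (D ∩ K (cut G r c) c).card := by
    rw [hKu, Finset.inter_union_distrib_left, Finset.card_union_of_disjoint]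
    exact hd.mono Finset.inter_subset_right Finset.inter_subset_right
  -- facts about the child
  have hcK' : c ∈ K G r := by rw [hKu]; exact mem_union_right _ hcK
  have hcr : c ≠ r := hrc.ne'
  -- for `c ∉ D`: a further neighbour of `c`
  have hcnb : c ∉ D → ∃ y, (cut G r c).Adj c y := by
    intro hcn
    obtain ⟨-, y, z, hne, hy, hz⟩ := hgood c hcK' hcr hcn
    by_cases h : y = r
    · refine ⟨z, cut_adj.2 ⟨hz, ?_⟩⟩
      intro he
      rcases Sym2.eq_iff.1 he with ⟨e1, -⟩ | ⟨-, e2⟩
      · exact hcr e1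
      · exact hne (h.trans e2.symm)
    · refine ⟨y, cut_adj.2 ⟨hy, ?_⟩⟩
      intro he
      rcases Sym2.eq_iff.1 he with ⟨e1, -⟩ | ⟨-, e2⟩
      · exact hcr e1
      · exact h e2
  -- child solutions
  have childAny : ∃ b, Sol (cut G r c) c b true (D ∩ K (cut G r c) c).card := by
    by_cases hcD' : c ∈ D
    · exact ⟨true, (cc1 hcD').1⟩
    · exact ⟨false, (cc2 hcD').1 (hcnb hcD')⟩
  have childOut : Sol (cut G r c) c false false (D ∩ K (cut G r c) c).card := by
    by_cases hcD' : c ∈ D
    · obtain ⟨m, hm, hs⟩ := (cc1 hcD').2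
      exact hs.mono (by omega)
    · exact (cc2 hcD').2.1
  have childOutD : c ∈ D → ∃ m, m + 1 ≤ (D ∩ K (cut G r c) c).card ∧
      Sol (cut G r c) c false false m := fun h => (cc1 h).2
  have childIn : r ∉ D → Sol (cut G r c) c true true (D ∩ K (cut G r c) c).card := by
    intro hrD
    by_cases hcD' : c ∈ D
    · exact (cc1 hcD').1
    · obtain ⟨⟨y, hy, hadj⟩, -⟩ := hgood c hcK' hcr hcD'
      have hyr : y ≠ r := by rintro rfl; exact hrD hy
      refine (cc2 hcD').2.2.2 ⟨y, hy, cut_adj.2 ⟨hadj, ?_⟩⟩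
      intro he
      rcases Sym2.eq_iff.1 he with ⟨e1, -⟩ | ⟨-, e2⟩
      · exact hcr e1
      · exact hyr e2
  refine ⟨fun hrD => ?_, fun hrD => ?_⟩
  · obtain ⟨a1, m, hm, b1⟩ := cr1 hrD
    rw [hsize]
    refine ⟨combine hG hrc a1 childOut (by simp) (Or.inr rfl) (fun _ => Or.inl rfl) le_rfl, ?_⟩
    obtain ⟨b, hb⟩ := childAny
    exact ⟨m + (D ∩ K (cut G r c) c).card, by omega,
      combine hG hrc b1 hb (by simp) (Or.inl rfl) (fun h => by cases h) le_rfl⟩
  · obtain ⟨c1, c2, c3, c4⟩ := cr2 hrD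
    rw [hsize]
    have hgam : Sol G r false true ((D ∩ K (cut G r c) r).card + (D ∩ K (cut G r c) c).card) :=
      combine hG hrc c2 (childIn hrD) (by simp) (Or.inl rfl) (fun _ => Or.inr rfl) le_rfl
    refine ⟨fun _ => hgam, hgam.weak, ?_, ?_⟩
    · exact combine hG hrc c3 childOut (by simp) (Or.inr rfl) (fun _ => Or.inl rfl) (by omega)
    · intro hex
      obtain ⟨m, hm, hs⟩ := childOutD (hcD hex)
      exact combine hG hrc c3 hs (by simp) (Or.inr rfl) (fun _ => Or.inl rfl) (by omega)

/-- In a tree, a dominating set containing all vertices of degree at most one is at least as large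
as some independent dominating set. -/
theorem exists_indep {T : SimpleGraph V} (hT : T.IsTree) (D : Finset V)
    (hD : ∀ x, x ∉ D → (∃ y ∈ D, T.Adj x y) ∧ ∃ y z, y ≠ z ∧ T.Adj x y ∧ T.Adj x z) :
    ∃ I : Finset V, IsDominating T I ∧ IsIndependent T I ∧ I.card ≤ D.card := by
  have hne : Nonempty V := hT.1.nonempty
  obtain ⟨v⟩ := hne
  have hDne : ∃ r, r ∈ D := by
    by_cases hv : v ∈ D
    · exact ⟨v, hv⟩
    · obtain ⟨⟨y, hy, -⟩, -⟩ := hD v hv
      exact ⟨y, hy⟩
  obtain ⟨r, hr⟩ := hDne
  have hcl := claim_all D T hT.2 r (fun x _ _ hx => hD x hx)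
  obtain ⟨⟨I, h1, h2, h3, h4, h5, h6⟩, -⟩ := hcl.1 hr
  have hKall : ∀ x, x ∈ K T r := fun x => mem_K.2 (hT.1.preconnected r x)
  refine ⟨I, ?_, h3, h6.trans (Finset.card_le_card Finset.inter_subset_left)⟩
  intro x hx
  by_cases hxr : x = r
  · exact absurd (hxr ▸ h2.2 rfl) hx
  · exact h4 x (hKall x) hxr hx

theorem le_weak {T : SimpleGraph V} (hT : T.IsTree) (D : Finset V) (hD : IsWeakDominating T D) :
    ∃ I : Finset V, IsDominating T I ∧ IsIndependent T I ∧ I.card ≤ D.card := by
  by_cases hall : ∀ x, x ∉ D → ∃ y z, y ≠ z ∧ T.Adj x y ∧ T.Adj x z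
  · refine exists_indep hT D (fun x hx => ⟨?_, hall x hx⟩)
    obtain ⟨u, hu, hadj, -⟩ := hD x hx
    exact ⟨u, hu, hadj⟩
  · -- a vertex of degree one outside `D`: the tree has two vertices
    push Not at hall
    obtain ⟨x, hx, huniq⟩ := hall
    obtain ⟨u, hu, hadj, hdeg⟩ := hD x hx
    have hx1 : ∀ y, T.Adj x y → y = u := by
      intro y hy
      by_contra hne
      exact huniq y u hne hy hadj
    have hdx : T.degree x = 1 := by
      rw [← SimpleGraph.card_neighborFinset_eq_degree]
      have : T.neighborFinset x = {u} := by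
        ext y
        rw [SimpleGraph.mem_neighborFinset, Finset.mem_singleton]
        exact ⟨hx1 y, fun h => h ▸ hadj⟩
      rw [this, Finset.card_singleton]
    have hu1 : ∀ y, T.Adj u y → y = x := by
      intro y hy
      have hle : T.degree u ≤ 1 := by omega
      rw [← SimpleGraph.card_neighborFinset_eq_degree, Finset.card_le_one] at hle
      exact hle y (by rw [SimpleGraph.mem_neighborFinset]; exact hy) x
        (by rw [SimpleGraph.mem_neighborFinset]; exact hadj.symm)
    have hV : ∀ z, z = u ∨ z = x := by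
      intro z
      have h := hT.1.preconnected u z
      rw [SimpleGraph.reachable_iff_reflTransGen] at h
      induction h with
      | refl => exact Or.inl rfl
      | @tail y z _ hyz ih =>
        rcases ih with ih | ih
        · rw [ih] at hyz
          exact Or.inr (hu1 z hyz)
        · rw [ih] at hyz
          exact Or.inl (hx1 z hyz)
    refine ⟨{u}, ?_, ?_, ?_⟩
    · intro z hz
      rw [Finset.mem_singleton] at hz
      rcases hV z with h | h
      · exact absurd h hz
      · exact ⟨u, Finset.mem_singleton_self u, h ▸ hadj⟩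
    · intro a ha b hb
      rw [Finset.mem_singleton] at ha hb
      rw [ha, hb]
      exact T.irrefl
    · rw [Finset.card_singleton]
      exact Finset.card_pos.2 ⟨u, hu⟩

/-- For every tree `T`, `i(T) ≤ γ_W(T)`. -/
theorem result : ∀ (V : Type) [Fintype V] (T : SimpleGraph V), T.IsTree →
    indepDomNumber T ≤ weakDomNumber T := by
  intro V _ T hT
  have hne : {s | ∃ D : Finset V, IsWeakDominating T D ∧ D.card = s}.Nonempty :=
    ⟨_, Finset.univ, fun v hv => absurd (Finset.mem_univ v) hv, rfl⟩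
  obtain ⟨D, hD, hs⟩ := Nat.sInf_mem hne
  obtain ⟨I, h1, h2, h3⟩ := le_weak hT D hD
  unfold weakDomNumber
  rw [← hs]
  refine le_trans (Nat.sInf_le ⟨I, h1, h2, rfl⟩) h3

end Pool.Agent.Results.MP_2d208d_co.TreesHold
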